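import Mathlib

set_option autoImplicit false

open Quaternion Matrix

namespace Pool.Agent.Results.MP_6087e2_al.AllDimensions

/-- the quaternion with given coordinates -/
def q4 {R : Type} [CommRing R] (a b c d : R) : ℍ[R] := ⟨a, b, c, d⟩

section
variable {R : Type} [CommRing R] (a b c d : R)
@[simp] theorem q4_re : (q4 a b c d).re = a := rfl
@[simp] theorem q4_imI : (q4 a b c d).imI = b := rfl
@[simp] theorem q4_imJ : (q4 a b c d).imJ = c := rfl
@[simp] theorem q4_imK : (q4 a b c d).imK = d := rfl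
end

/-- integer quaternions of norm 25 -/
def tz (l : Fin 2 × Bool) : ℍ[ℤ] :=
  if l.1 = 0 then (if l.2 then q4 3 4 0 0 else q4 3 (-4) 0 0)
  else (if l.2 then q4 3 0 4 0 else q4 3 0 (-4) 0)

/-- divisibility by five -/
def D5 (x : ℍ[ℤ]) : Prop := 5 ∣ x.re ∧ 5 ∣ x.imI ∧ 5 ∣ x.imJ ∧ 5 ∣ x.imK

theorem step (l l' : Fin 2 × Bool) (h : l.1 = l'.1 → l.2 = l'.2) (Q : ℍ[ℤ])
    (hD : D5 (tz l * (tz l' * Q))) : D5 (tz l' * Q) := by
  obtain ⟨i, b⟩ := l
  obtain ⟨i', b'⟩ := l'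
  unfold D5 at hD ⊢
  fin_cases i <;> fin_cases i' <;> cases b <;> cases b' <;>
    simp [tz] at h hD ⊢ <;> omega

theorem not_D5 (L : List (Fin 2 × Bool)) (hL : FreeGroup.IsReduced L) (hne : L ≠ []) :
    ¬ D5 ((L.map tz).prod) := by
  induction L with
  | nil => exact absurd rfl hne
  | cons l L ih =>
    cases L with
    | nil =>
      obtain ⟨i, b⟩ := l
      simp only [List.map_cons, List.map_nil, List.prod_cons, List.prod_nil, mul_one]
      unfold D5
      fin_cases i <;> cases b <;> simp [tz]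
    | cons l' L =>
      have hr := (FreeGroup.isReduced_cons_cons).1 hL
      have ih' := ih hr.2 (by simp)
      intro hD
      apply ih'
      simp only [List.map_cons, List.prod_cons] at hD ⊢
      exact step l l' hr.1 _ hD

/-- the ring homomorphism from integer to real quaternions -/
def cast (x : ℍ[ℤ]) : ℍ[ℝ] := q4 x.re x.imI x.imJ x.imK

theorem cast_mul (x y : ℍ[ℤ]) : cast (x * y) = cast x * cast y := by
  ext <;> simp [cast]

theorem cast_one : cast 1 = 1 := by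
  ext <;> simp [cast]

/-- the two unit quaternions -/
noncomputable def gen (i : Fin 2) : unitary ℍ[ℝ] :=
  ⟨if i = 0 then q4 (3 / 5) (4 / 5) 0 0 else q4 (3 / 5) 0 (4 / 5) 0, by
    constructor <;> fin_cases i <;> ext <;> simp <;> norm_num⟩

/-- the homomorphism from the free group -/
noncomputable def P : FreeGroup (Fin 2) →* unitary ℍ[ℝ] := FreeGroup.lift gen

theorem letter (l : Fin 2 × Bool) :
    (5 : ℝ) • ((cond l.2 (gen l.1) (gen l.1)⁻¹ : unitary ℍ[ℝ]) : ℍ[ℝ]) = cast (tz l) := by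
  obtain ⟨i, b⟩ := l
  cases b
  · have h : (((gen i)⁻¹ : unitary ℍ[ℝ]) : ℍ[ℝ]) = star ((gen i : unitary ℍ[ℝ]) : ℍ[ℝ]) := rfl
    simp only [cond_false, h]
    fin_cases i <;> ext <;> simp [gen, tz, cast] <;> norm_num
  · simp only [cond_true]
    fin_cases i <;> ext <;> simp [gen, tz, cast] <;> norm_num

theorem word (L : List (Fin 2 × Bool)) :
    ((5 : ℝ) ^ L.length) • (((L.map fun x => cond x.2 (gen x.1) (gen x.1)⁻¹).prod : unitary ℍ[ℝ]) : ℍ[ℝ])
      = cast ((L.map tz).prod) := by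
  induction L with
  | nil => simp [cast_one]
  | cons l L ih =>
    simp only [List.map_cons, List.prod_cons, List.length_cons]
    rw [cast_mul, ← ih, ← letter]
    simp only [Submonoid.coe_mul, pow_succ', mul_smul, smul_mul_assoc, mul_smul_comm]
    rw [smul_comm]

theorem P_injective : Function.Injective P := by
  rw [injective_iff_map_eq_one]
  intro w hw
  by_contra hne
  have hL : FreeGroup.IsReduced w.toWord := FreeGroup.isReduced_toWord
  have hne' : w.toWord ≠ [] := by rwa [ne_eq, FreeGroup.toWord_eq_nil_iff]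
  have h1 : P w = (w.toWord.map fun x => cond x.2 (gen x.1) (gen x.1)⁻¹).prod := by
    conv_lhs => rw [← FreeGroup.mk_toWord (x := w)]
    exact FreeGroup.lift_mk
  have h2 := word w.toWord
  rw [← h1, hw] at h2
  have hlen : w.toWord.length ≠ 0 := by simpa using hne'
  obtain ⟨n, hn⟩ := Nat.exists_eq_succ_of_ne_zero hlen
  apply not_D5 _ hL hne'
  generalize (w.toWord.map tz).prod = Q at h2
  rw [hn] at h2
  have hre := congrArg (fun x => x.re) h2
  have hi := congrArg (fun x => x.imI) h2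
  have hj := congrArg (fun x => x.imJ) h2
  have hk := congrArg (fun x => x.imK) h2
  simp [cast] at hre hi hj hk
  refine ⟨⟨5 ^ n, ?_⟩, ?_, ?_, ?_⟩
  · have h3 : (5 : ℤ) ^ (n + 1) = Q.re := by exact_mod_cast hre
    rw [← h3, pow_succ']
  · have h3 : (0 : ℤ) = Q.imI := by exact_mod_cast hi
    exact h3 ▸ dvd_zero _
  · have h3 : (0 : ℤ) = Q.imJ := by exact_mod_cast hj
    exact h3 ▸ dvd_zero _
  · have h3 : (0 : ℤ) = Q.imK := by exact_mod_cast hk
    exact h3 ▸ dvd_zero _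

/-! ### Matrices -/

/-- left multiplication -/
def Lm (a : ℍ[ℝ]) : Matrix (Fin 4) (Fin 4) ℝ :=
  !![a.re, -a.imI, -a.imJ, -a.imK;
     a.imI, a.re, -a.imK, a.imJ;
     a.imJ, a.imK, a.re, -a.imI;
     a.imK, -a.imJ, a.imI, a.re]

/-- right multiplication -/
def Rm (b : ℍ[ℝ]) : Matrix (Fin 4) (Fin 4) ℝ :=
  !![b.re, -b.imI, -b.imJ, -b.imK;
     b.imI, b.re, b.imK, -b.imJ;
     b.imJ, -b.imK, b.re, b.imI;
     b.imK, b.imJ, -b.imI, b.re]

/-- conjugation on imaginary quaternions -/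
def Am (a : ℍ[ℝ]) : Matrix (Fin 3) (Fin 3) ℝ :=
  !![a.re^2 + a.imI^2 - a.imJ^2 - a.imK^2, 2*(a.imI*a.imJ - a.re*a.imK), 2*(a.imI*a.imK + a.re*a.imJ);
     2*(a.imI*a.imJ + a.re*a.imK), a.re^2 - a.imI^2 + a.imJ^2 - a.imK^2, 2*(a.imJ*a.imK - a.re*a.imI);
     2*(a.imI*a.imK - a.re*a.imJ), 2*(a.imJ*a.imK + a.re*a.imI), a.re^2 - a.imI^2 - a.imJ^2 + a.imK^2]

theorem Lm_mul (a b : ℍ[ℝ]) : Lm (a * b) = Lm a * Lm b := by
  ext i j
  fin_cases i <;> fin_cases j <;> simp [Lm, Matrix.mul_apply, Fin.sum_univ_four] <;> ring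

theorem Rm_mul (a b : ℍ[ℝ]) : Rm (a * b) = Rm b * Rm a := by
  ext i j
  fin_cases i <;> fin_cases j <;> simp [Rm, Matrix.mul_apply, Fin.sum_univ_four] <;> ring

theorem Lm_Rm (a b : ℍ[ℝ]) : Lm a * Rm b = Rm b * Lm a := by
  ext i j
  fin_cases i <;> fin_cases j <;> simp [Lm, Rm, Matrix.mul_apply, Fin.sum_univ_four] <;> ring

theorem Am_mul (a b : ℍ[ℝ]) : Am (a * b) = Am a * Am b := by
  ext i j
  fin_cases i <;> fin_cases j <;> simp [Am, Matrix.mul_apply, Fin.sum_univ_three] <;> ring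

theorem Lm_tr (a : ℍ[ℝ]) : Lm a * (Lm a)ᵀ = (normSq a) • 1 := by
  ext i j
  fin_cases i <;> fin_cases j <;> simp [Lm, Matrix.mul_apply, Fin.sum_univ_four, normSq_def'] <;> ring

theorem Rm_tr (a : ℍ[ℝ]) : Rm a * (Rm a)ᵀ = (normSq a) • 1 := by
  ext i j
  fin_cases i <;> fin_cases j <;> simp [Rm, Matrix.mul_apply, Fin.sum_univ_four, normSq_def'] <;> ring

theorem Am_tr (a : ℍ[ℝ]) : Am a * (Am a)ᵀ = (normSq a ^ 2) • 1 := by
  ext i j
  fin_cases i <;> fin_cases j <;> simp [Am, Matrix.mul_apply, Fin.sum_univ_three, normSq_def'] <;> ring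

theorem Lm_det (a : ℍ[ℝ]) : (Lm a).det = (normSq a) ^ 2 := by
  simp [Lm, Matrix.det_succ_row_zero, Fin.sum_univ_succ, normSq_def', Fin.succAbove]
  ring

theorem Rm_det (a : ℍ[ℝ]) : (Rm a).det = (normSq a) ^ 2 := by
  simp [Rm, Matrix.det_succ_row_zero, Fin.sum_univ_succ, normSq_def', Fin.succAbove]
  ring

theorem Am_det (a : ℍ[ℝ]) : (Am a).det = (normSq a) ^ 3 := by
  simp [Am, Matrix.det_fin_three, normSq_def']
  ring


/-! ### Vectors and quaternions -/

/-- the quaternion of a vector in dimension four -/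
def Q4 (x : Fin 4 → ℝ) : ℍ[ℝ] := q4 (x 0) (x 1) (x 2) (x 3)

/-- the imaginary quaternion of a vector in dimension three -/
def Q3 (x : Fin 3 → ℝ) : ℍ[ℝ] := q4 0 (x 0) (x 1) (x 2)

theorem Q4_Lm (a : ℍ[ℝ]) (x : Fin 4 → ℝ) : Q4 ((Lm a).mulVec x) = a * Q4 x := by
  ext <;> simp [Q4, Lm, Matrix.mulVec, dotProduct, Fin.sum_univ_four] <;> ring

theorem Q4_Rm (a : ℍ[ℝ]) (x : Fin 4 → ℝ) : Q4 ((Rm a).mulVec x) = Q4 x * a := by
  ext <;> simp [Q4, Rm, Matrix.mulVec, dotProduct, Fin.sum_univ_four] <;> ring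

theorem Q3_Am (a : ℍ[ℝ]) (x : Fin 3 → ℝ) : Q3 ((Am a).mulVec x) = a * Q3 x * star a := by
  ext <;> simp [Q3, Am, Matrix.mulVec, dotProduct, Fin.sum_univ_three] <;> ring

theorem Q4_ne_zero {x : Fin 4 → ℝ} (hx : x ≠ 0) : Q4 x ≠ 0 := by
  intro h
  apply hx
  have h0 := congrArg (fun y => y.re) h
  have h1 := congrArg (fun y => y.imI) h
  have h2 := congrArg (fun y => y.imJ) h
  have h3 := congrArg (fun y => y.imK) h
  simp [Q4] at h0 h1 h2 h3
  ext i
  fin_cases i <;> simp [h0, h1, h2, h3]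

theorem Q3_ne_zero {x : Fin 3 → ℝ} (hx : x ≠ 0) : Q3 x ≠ 0 := by
  intro h
  apply hx
  have h1 := congrArg (fun y => y.imI) h
  have h2 := congrArg (fun y => y.imJ) h
  have h3 := congrArg (fun y => y.imK) h
  simp [Q3] at h1 h2 h3
  ext i
  fin_cases i <;> simp [h1, h2, h3]

theorem unit_star_mul (a : unitary ℍ[ℝ]) : star (a : ℍ[ℝ]) * (a : ℍ[ℝ]) = 1 := a.2.1

theorem unit_mul_star (a : unitary ℍ[ℝ]) : (a : ℍ[ℝ]) * star (a : ℍ[ℝ]) = 1 := a.2.2

theorem normSq_unit (a : unitary ℍ[ℝ]) : normSq (a : ℍ[ℝ]) = 1 := by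
  have h := unit_mul_star a
  rw [self_mul_star] at h
  have h2 := congrArg (fun y => y.re) h
  simpa using h2

/-- elements commuting with a nonzero imaginary quaternion commute -/
theorem comm_of_comm {a b X : ℍ[ℝ]} (hX : X.re = 0) (hX0 : X ≠ 0) (ha : a * X = X * a)
    (hb : b * X = X * b) : a * b = b * a := by
  have key : ∀ c : ℍ[ℝ], c * X = X * c → ∃ α : ℝ, c = (c.re : ℍ[ℝ]) + α • X := by
    intro c hc
    have h1 := congrArg (fun y => y.imI) hc
    have h2 := congrArg (fun y => y.imJ) hc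
    have h3 := congrArg (fun y => y.imK) hc
    simp [hX] at h1 h2 h3
    have hn : X.imI ^ 2 + X.imJ ^ 2 + X.imK ^ 2 ≠ 0 := by
      intro h
      apply hX0
      have e1 : X.imI = 0 := by nlinarith [sq_nonneg X.imI, sq_nonneg X.imJ, sq_nonneg X.imK]
      have e2 : X.imJ = 0 := by nlinarith [sq_nonneg X.imI, sq_nonneg X.imJ, sq_nonneg X.imK]
      have e3 : X.imK = 0 := by nlinarith [sq_nonneg X.imI, sq_nonneg X.imJ, sq_nonneg X.imK]
      ext <;> simp [hX, e1, e2, e3]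
    refine ⟨(c.imI * X.imI + c.imJ * X.imJ + c.imK * X.imK) /
      (X.imI ^ 2 + X.imJ ^ 2 + X.imK ^ 2), ?_⟩
    ext
    · simp [hX]
    · simp
      field_simp
      linear_combination (-X.imK / 2) * h2 + (X.imJ / 2) * h3
    · simp
      field_simp
      linear_combination (X.imK / 2) * h1 + (-X.imI / 2) * h3
    · simp
      field_simp
      linear_combination (-X.imJ / 2) * h1 + (X.imI / 2) * h2
  obtain ⟨α, hα⟩ := key a ha
  obtain ⟨β, hβ⟩ := key b hb
  rw [hα, hβ]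
  ext <;> simp <;> ring


/-! ### Homomorphisms to special orthogonal groups -/

/-- the action `x ↦ a x b⁻¹` -/
noncomputable def hom4 : unitary ℍ[ℝ] × unitary ℍ[ℝ] →* Matrix.specialOrthogonalGroup (Fin 4) ℝ :=
  MonoidHom.mk' (fun g => ⟨Lm (g.1 : ℍ[ℝ]) * Rm (star (g.2 : ℍ[ℝ])), by
    rw [Matrix.mem_specialOrthogonalGroup_iff, Matrix.mem_orthogonalGroup_iff]
    constructor
    · rw [Matrix.transpose_mul, Matrix.mul_assoc, ← Matrix.mul_assoc (Rm _), Rm_tr, normSq_star,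
        normSq_unit, one_smul, Matrix.one_mul, Lm_tr, normSq_unit, one_smul]
    · rw [Matrix.det_mul, Lm_det, Rm_det, normSq_star, normSq_unit, normSq_unit]; norm_num⟩)
  (by
    intro g h
    apply Subtype.ext
    simp only [Submonoid.coe_mul, Prod.fst_mul, Prod.snd_mul, Lm_mul, star_mul, Rm_mul]
    simp only [Matrix.mul_assoc]
    rw [← Matrix.mul_assoc (Rm (star (g.2 : ℍ[ℝ]))), ← Lm_Rm]
    simp only [Matrix.mul_assoc])

/-- the action by conjugation on imaginary quaternions -/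
noncomputable def hom3 : unitary ℍ[ℝ] →* Matrix.specialOrthogonalGroup (Fin 3) ℝ :=
  MonoidHom.mk' (fun g => ⟨Am (g : ℍ[ℝ]), by
    rw [Matrix.mem_specialOrthogonalGroup_iff, Matrix.mem_orthogonalGroup_iff]
    constructor
    · rw [Am_tr, normSq_unit]; simp
    · rw [Am_det, normSq_unit]; norm_num⟩)
  (by
    intro g h
    apply Subtype.ext
    simp only [Submonoid.coe_mul, Am_mul])

/-- two copies of the conjugation action, twisted by a sign -/
noncomputable def hom6 : ℤˣ × unitary ℍ[ℝ] →* Matrix.specialOrthogonalGroup (Fin 3 ⊕ Fin 3) ℝ :=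
  MonoidHom.mk' (fun g => ⟨Matrix.fromBlocks (((g.1 : ℤ) : ℝ) • Am (g.2 : ℍ[ℝ])) 0 0
      (((g.1 : ℤ) : ℝ) • Am (g.2 : ℍ[ℝ])), by
    have hsq : (((g.1 : ℤ) : ℝ)) * ((g.1 : ℤ) : ℝ) = 1 := by
      rcases Int.units_eq_one_or g.1 with h | h <;> rw [h] <;> simp
    rw [Matrix.mem_specialOrthogonalGroup_iff, Matrix.mem_orthogonalGroup_iff]
    constructor
    · rw [Matrix.fromBlocks_transpose, Matrix.fromBlocks_multiply]
      simp only [Matrix.transpose_smul, Matrix.smul_mul, Matrix.mul_smul, Am_tr, normSq_unit,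
        smul_smul, Matrix.transpose_zero, Matrix.mul_zero, Matrix.zero_mul]
      simp [← Matrix.fromBlocks_one, hsq]
    · rw [Matrix.det_fromBlocks_zero₂₁, Matrix.det_smul, Am_det, normSq_unit]
      simp only [Fintype.card_fin]
      have : ((g.1 : ℤ) : ℝ) ^ 3 * 1 ^ 3 * (((g.1 : ℤ) : ℝ) ^ 3 * 1 ^ 3) =
        (((g.1 : ℤ) : ℝ) * ((g.1 : ℤ) : ℝ)) ^ 3 := by ring
      rw [this, hsq, one_pow]⟩)
  (by
    intro g h
    apply Subtype.ext
    simp only [Submonoid.coe_mul, Prod.fst_mul, Prod.snd_mul, Am_mul, Matrix.fromBlocks_multiply,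
      Units.val_mul, Int.cast_mul, Matrix.smul_mul, Matrix.mul_smul, smul_smul,
      Matrix.mul_zero, Matrix.zero_mul, add_zero, zero_add, smul_zero]
    rw [mul_comm (((h.1 : ℤ) : ℝ))])

/-- direct sums -/
noncomputable def homSum (ι κ : Type) [Fintype ι] [DecidableEq ι] [Fintype κ] [DecidableEq κ] :
    Matrix.specialOrthogonalGroup ι ℝ × Matrix.specialOrthogonalGroup κ ℝ →*
      Matrix.specialOrthogonalGroup (ι ⊕ κ) ℝ :=
  MonoidHom.mk' (fun g => ⟨Matrix.fromBlocks (g.1 : Matrix ι ι ℝ) 0 0 (g.2 : Matrix κ κ ℝ), by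
    have h1 := (Matrix.mem_specialOrthogonalGroup_iff).1 g.1.2
    have h2 := (Matrix.mem_specialOrthogonalGroup_iff).1 g.2.2
    rw [Matrix.mem_orthogonalGroup_iff] at h1 h2
    rw [Matrix.mem_specialOrthogonalGroup_iff, Matrix.mem_orthogonalGroup_iff]
    constructor
    · rw [Matrix.fromBlocks_transpose, Matrix.fromBlocks_multiply]
      simp [h1.1, h2.1, ← Matrix.fromBlocks_one]
    · rw [Matrix.det_fromBlocks_zero₂₁, h1.2, h2.2, one_mul]⟩)
  (by
    intro g h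
    apply Subtype.ext
    simp [Matrix.fromBlocks_multiply])

/-- reindexing -/
noncomputable def homReindex {ι κ : Type} [Fintype ι] [DecidableEq ι] [Fintype κ] [DecidableEq κ]
    (e : ι ≃ κ) : Matrix.specialOrthogonalGroup ι ℝ →* Matrix.specialOrthogonalGroup κ ℝ :=
  MonoidHom.mk' (fun g => ⟨(g : Matrix ι ι ℝ).submatrix e.symm e.symm, by
    have h1 := (Matrix.mem_specialOrthogonalGroup_iff).1 g.2
    rw [Matrix.mem_orthogonalGroup_iff] at h1
    rw [Matrix.mem_specialOrthogonalGroup_iff, Matrix.mem_orthogonalGroup_iff]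
    constructor
    · rw [Matrix.transpose_submatrix, Matrix.submatrix_mul_equiv, h1.1,
        Matrix.submatrix_one_equiv]
    · rw [Matrix.det_submatrix_equiv_self, h1.2]⟩)
  (by
    intro g h
    apply Subtype.ext
    simp [Matrix.submatrix_mul_equiv])


/-! ### Good representations -/

/-- a faithful representation of the free group of rank two, all of whose point stabilisers
commute -/
def IsT {ι : Type} [Fintype ι] [DecidableEq ι]
    (f : FreeGroup (Fin 2) →* Matrix.specialOrthogonalGroup ι ℝ) : Prop :=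
  Function.Injective f ∧ ∀ w₁ w₂ : FreeGroup (Fin 2), ∀ x : ι → ℝ, x ≠ 0 →
    (f w₁ : Matrix ι ι ℝ).mulVec x = x → (f w₂ : Matrix ι ι ℝ).mulVec x = x → w₁ * w₂ = w₂ * w₁

/-- some element has eigenvalue `-1` -/
def IsS {ι : Type} [Fintype ι] [DecidableEq ι]
    (f : FreeGroup (Fin 2) →* Matrix.specialOrthogonalGroup ι ℝ) : Prop :=
  IsT f ∧ ∃ w : FreeGroup (Fin 2), ∃ x : ι → ℝ, x ≠ 0 ∧ (f w : Matrix ι ι ℝ).mulVec x = -x

theorem eq_one_of_central (w : FreeGroup (Fin 2))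
    (hi : (P w : ℍ[ℝ]) * q4 0 1 0 0 = q4 0 1 0 0 * (P w : ℍ[ℝ]))
    (hj : (P w : ℍ[ℝ]) * q4 0 0 1 0 = q4 0 0 1 0 * (P w : ℍ[ℝ])) : w = 1 := by
  have a1 := congrArg (fun y => y.imJ) hi
  have a2 := congrArg (fun y => y.imK) hi
  have a3 := congrArg (fun y => y.imI) hj
  have a4 := congrArg (fun y => y.imK) hj
  simp at a1 a2 a3 a4
  have e1 : (P w : ℍ[ℝ]).imI = 0 := by linarith
  have e2 : (P w : ℍ[ℝ]).imJ = 0 := by linarith
  have e3 : (P w : ℍ[ℝ]).imK = 0 := by linarith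
  have hstar : star (P w : ℍ[ℝ]) = (P w : ℍ[ℝ]) := by
    ext <;> simp [e1, e2, e3]
  have h1 := unit_star_mul (P w)
  rw [hstar] at h1
  have h2 : P (w * w) = P 1 := by
    rw [map_mul, map_one]
    apply Subtype.ext
    exact h1
  have h3 : w * w = 1 := P_injective h2
  have h4 : w ^ 2 = 1 := by rw [pow_two]; exact h3
  exact (pow_eq_one_iff_left (two_ne_zero)).1 h4

theorem key3 (w : FreeGroup (Fin 2)) (c : ℝ) (x : Fin 3 → ℝ)
    (h : (Am (P w : ℍ[ℝ])).mulVec x = c • x) :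
    (P w : ℍ[ℝ]) * Q3 x = c • (Q3 x * (P w : ℍ[ℝ])) := by
  have h1 : Q3 ((Am (P w : ℍ[ℝ])).mulVec x) = Q3 (c • x) := congrArg Q3 h
  have h2 : Q3 (c • x) = c • Q3 x := by
    ext <;> simp [Q3]
  rw [Q3_Am, h2] at h1
  calc (P w : ℍ[ℝ]) * Q3 x = (P w : ℍ[ℝ]) * Q3 x * (star (P w : ℍ[ℝ]) * (P w : ℍ[ℝ])) := by
        rw [unit_star_mul, mul_one]
    _ = ((P w : ℍ[ℝ]) * Q3 x * star (P w : ℍ[ℝ])) * (P w : ℍ[ℝ]) := by simp only [mul_assoc]
    _ = c • (Q3 x * (P w : ℍ[ℝ])) := by rw [h1, smul_mul_assoc]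

theorem commute_of_key3 {w₁ w₂ : FreeGroup (Fin 2)} {x : Fin 3 → ℝ} (hx : x ≠ 0)
    (h1 : (Am (P w₁ : ℍ[ℝ])).mulVec x = x) (h2 : (Am (P w₂ : ℍ[ℝ])).mulVec x = x) :
    w₁ * w₂ = w₂ * w₁ := by
  apply P_injective
  rw [map_mul, map_mul]
  apply Subtype.ext
  have k1 := key3 w₁ 1 x (by rw [h1, one_smul])
  have k2 := key3 w₂ 1 x (by rw [h2, one_smul])
  rw [one_smul] at k1 k2
  exact comm_of_comm (X := Q3 x) rfl (Q3_ne_zero hx) k1 k2

theorem Q3_e0 : Q3 ![1, 0, 0] = q4 0 1 0 0 := rfl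

theorem Q3_e1 : Q3 ![0, 1, 0] = q4 0 0 1 0 := rfl

theorem isT_three : IsT (hom3.comp P) := by
  refine ⟨?_, ?_⟩
  · rw [injective_iff_map_eq_one]
    intro w hw
    have hfix : ∀ x : Fin 3 → ℝ, (Am (P w : ℍ[ℝ])).mulVec x = (1 : ℝ) • x := by
      intro x
      have : Am (P w : ℍ[ℝ]) = 1 := congrArg Subtype.val hw
      rw [this]; simp
    refine eq_one_of_central w ?_ ?_
    · have := key3 w 1 ![1, 0, 0] (hfix _)
      rwa [one_smul, Q3_e0] at this
    · have := key3 w 1 ![0, 1, 0] (hfix _)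
      rwa [one_smul, Q3_e1] at this
  · intro w₁ w₂ x hx h1 h2
    exact commute_of_key3 hx h1 h2

/-- the sign character which is `-1` on the first generator -/
def chi : FreeGroup (Fin 2) →* ℤˣ := FreeGroup.lift (fun i => if i = 0 then -1 else 1)

/-- the representation in dimension six -/
noncomputable def f6 : FreeGroup (Fin 2) →* Matrix.specialOrthogonalGroup (Fin 3 ⊕ Fin 3) ℝ :=
  hom6.comp (chi.prod P)

/-- an element of the twisted representation of dimension three -/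
theorem twisted_fix {w : FreeGroup (Fin 2)} {x : Fin 3 → ℝ} (hx : x ≠ 0)
    (h : ((((chi w : ℤˣ) : ℤ) : ℝ) • Am (P w : ℍ[ℝ])).mulVec x = x) :
    (Am (P w : ℍ[ℝ])).mulVec x = x := by
  rcases Int.units_eq_one_or (chi w) with hc | hc
  · rw [hc] at h
    simpa using h
  · exfalso
    rw [hc] at h
    have h' : (Am (P w : ℍ[ℝ])).mulVec x = (-1 : ℝ) • x := by
      have h2 : -((Am (P w : ℍ[ℝ])).mulVec x) = x := by
        simpa [Matrix.smul_mulVec, Matrix.neg_mulVec] using h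
      rw [neg_one_smul, ← h2, neg_neg, h2]
    have k := key3 w (-1) x h'
    -- `P w` anticommutes with a nonzero imaginary quaternion, so it is imaginary
    set a := (P w : ℍ[ℝ]) with ha
    have hX0 : Q3 x ≠ 0 := Q3_ne_zero hx
    have hre : a.re = 0 := by
      have k1 := congrArg (fun y => y.imI) k
      have k2 := congrArg (fun y => y.imJ) k
      have k3 := congrArg (fun y => y.imK) k
      simp [Q3] at k1 k2 k3
      by_contra hne
      apply hx
      have z0 : a.re * x 0 = 0 := by linarith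
      have z1 : a.re * x 1 = 0 := by linarith
      have z2 : a.re * x 2 = 0 := by linarith
      ext i
      fin_cases i
      · simpa [hne] using z0
      · simpa [hne] using z1
      · simpa [hne] using z2
    have hstar : star a = -a := by
      ext <;> simp [hre]
    have h1 := unit_star_mul (P w)
    rw [← ha, hstar] at h1
    have h2 : a * a = -1 := by
      rw [neg_mul] at h1
      rw [← h1, neg_neg]
    have h3 : P (w ^ 4) = P 1 := by
      rw [map_pow, map_one]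
      apply Subtype.ext
      have : (((P w) ^ 4 : unitary ℍ[ℝ]) : ℍ[ℝ]) = (a * a) * (a * a) := by
        simp only [SubmonoidClass.coe_pow, ← ha]
        noncomm_ring
      rw [this, h2]
      simp
    have h4 : w ^ 4 = 1 := P_injective h3
    have h5 : w = 1 := (pow_eq_one_iff_left (by norm_num)).1 h4
    rw [h5, map_one] at hc
    exact absurd hc (by decide)

theorem isS_six : IsS f6 := by
  have hval : ∀ w, (f6 w : Matrix (Fin 3 ⊕ Fin 3) (Fin 3 ⊕ Fin 3) ℝ) =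
      Matrix.fromBlocks ((((chi w : ℤˣ) : ℤ) : ℝ) • Am (P w : ℍ[ℝ])) 0 0
      ((((chi w : ℤˣ) : ℤ) : ℝ) • Am (P w : ℍ[ℝ])) := fun w => rfl
  have hsplit : ∀ w (x : Fin 3 ⊕ Fin 3 → ℝ),
      (f6 w : Matrix (Fin 3 ⊕ Fin 3) (Fin 3 ⊕ Fin 3) ℝ).mulVec x = x →
      ((((chi w : ℤˣ) : ℤ) : ℝ) • Am (P w : ℍ[ℝ])).mulVec (x ∘ Sum.inl) = x ∘ Sum.inl ∧
      ((((chi w : ℤˣ) : ℤ) : ℝ) • Am (P w : ℍ[ℝ])).mulVec (x ∘ Sum.inr) = x ∘ Sum.inr := by
    intro w x h
    rw [hval, Matrix.fromBlocks_mulVec] at h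
    constructor
    · funext i
      have := congrFun h (Sum.inl i)
      simpa using this
    · funext i
      have := congrFun h (Sum.inr i)
      simpa using this
  refine ⟨⟨?_, ?_⟩, FreeGroup.of 0, Sum.elim ![1, 0, 0] 0, ?_, ?_⟩
  · rw [injective_iff_map_eq_one]
    intro w hw
    have hfix : ∀ x : Fin 3 → ℝ, x ≠ 0 → (Am (P w : ℍ[ℝ])).mulVec x = (1 : ℝ) • x := by
      intro x hx
      have h1 : (f6 w : Matrix (Fin 3 ⊕ Fin 3) (Fin 3 ⊕ Fin 3) ℝ).mulVec (Sum.elim x 0) =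
          Sum.elim x 0 := by
        rw [hw]; simp
      rw [one_smul]
      exact twisted_fix hx (hsplit w _ h1).1
    refine eq_one_of_central w ?_ ?_
    · have := key3 w 1 ![1, 0, 0] (hfix _ (by simp))
      rwa [one_smul, Q3_e0] at this
    · have := key3 w 1 ![0, 1, 0] (hfix _ (by simp))
      rwa [one_smul, Q3_e1] at this
  · intro w₁ w₂ x hx h1 h2
    have hne : x ∘ Sum.inl ≠ 0 ∨ x ∘ Sum.inr ≠ 0 := by
      by_contra hcon
      push Not at hcon
      apply hx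
      funext i
      rcases i with i | i
      · exact congrFun hcon.1 i
      · exact congrFun hcon.2 i
    rcases hne with hne | hne
    · exact commute_of_key3 hne (twisted_fix hne (hsplit w₁ x h1).1)
        (twisted_fix hne (hsplit w₂ x h2).1)
    · exact commute_of_key3 hne (twisted_fix hne (hsplit w₁ x h1).2)
        (twisted_fix hne (hsplit w₂ x h2).2)
  · intro h
    have := congrFun h (Sum.inl 0)
    simp at this
  · have hc : chi (FreeGroup.of 0) = -1 := by simp [chi]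
    have hp : P (FreeGroup.of 0) = gen 0 := by simp [P]
    rw [hval, hc, hp, Matrix.fromBlocks_mulVec]
    funext i
    rcases i with i | i
    · fin_cases i
      all_goals simp [Am, gen]
      norm_num
    · simp


/-! ### Dimension four -/

/-- minus a unit quaternion -/
noncomputable def negGen : unitary ℍ[ℝ] := ⟨-(gen 0 : ℍ[ℝ]), by
  constructor
  · simp
  · simp⟩

/-- the second coordinate of the four-dimensional representation -/
noncomputable def Nn : FreeGroup (Fin 2) →* unitary ℍ[ℝ] :=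
  FreeGroup.lift (fun i => if i = 0 then negGen else 1)

theorem Nn_mem (w : FreeGroup (Fin 2)) : Nn w ∈ Subgroup.zpowers negGen := by
  have h : Nn.range ≤ Subgroup.zpowers negGen := by
    refine FreeGroup.range_lift_le ?_
    rintro _ ⟨i, rfl⟩
    by_cases hi : i = 0
    · simp [hi]
    · simp [hi]
  exact h ⟨w, rfl⟩

theorem Nn_comm (w₁ w₂ : FreeGroup (Fin 2)) : Nn w₁ * Nn w₂ = Nn w₂ * Nn w₁ := by
  obtain ⟨m, hm⟩ := Subgroup.mem_zpowers_iff.1 (Nn_mem w₁)
  obtain ⟨n, hn⟩ := Subgroup.mem_zpowers_iff.1 (Nn_mem w₂)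
  rw [← hm, ← hn, ← _root_.zpow_add, ← _root_.zpow_add, add_comm]

/-- the representation in dimension four -/
noncomputable def f4 : FreeGroup (Fin 2) →* Matrix.specialOrthogonalGroup (Fin 4) ℝ :=
  hom4.comp (P.prod Nn)

theorem key4 (w : FreeGroup (Fin 2)) (x : Fin 4 → ℝ)
    (h : (f4 w : Matrix (Fin 4) (Fin 4) ℝ).mulVec x = x) :
    (P w : ℍ[ℝ]) * Q4 x = Q4 x * (Nn w : ℍ[ℝ]) := by
  have hval : (f4 w : Matrix (Fin 4) (Fin 4) ℝ) =
    Lm (P w : ℍ[ℝ]) * Rm (star (Nn w : ℍ[ℝ])) := rfl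
  rw [hval, ← Matrix.mulVec_mulVec] at h
  have h1 := congrArg Q4 h
  rw [Q4_Lm, Q4_Rm] at h1
  calc (P w : ℍ[ℝ]) * Q4 x = (P w : ℍ[ℝ]) * Q4 x * (star (Nn w : ℍ[ℝ]) * (Nn w : ℍ[ℝ])) := by
        rw [unit_star_mul, mul_one]
    _ = ((P w : ℍ[ℝ]) * (Q4 x * star (Nn w : ℍ[ℝ]))) * (Nn w : ℍ[ℝ]) := by
        simp only [mul_assoc]
    _ = Q4 x * (Nn w : ℍ[ℝ]) := by rw [h1]

theorem isS_four : IsS f4 := by
  refine ⟨⟨?_, ?_⟩, FreeGroup.of 0, ![1, 0, 0, 0], ?_, ?_⟩
  · rw [injective_iff_map_eq_one]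
    intro w hw
    have hfix : ∀ x : Fin 4 → ℝ, (f4 w : Matrix (Fin 4) (Fin 4) ℝ).mulVec x = x := by
      intro x; rw [hw]; simp
    have k1 := key4 w ![1, 0, 0, 0] (hfix _)
    have ki := key4 w ![0, 1, 0, 0] (hfix _)
    have kj := key4 w ![0, 0, 1, 0] (hfix _)
    have e1 : Q4 ![1, 0, 0, 0] = 1 := by ext <;> simp [Q4]
    have ei : Q4 ![0, 1, 0, 0] = q4 0 1 0 0 := rfl
    have ej : Q4 ![0, 0, 1, 0] = q4 0 0 1 0 := rfl
    rw [e1, mul_one, one_mul] at k1
    rw [ei, ← k1] at ki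
    rw [ej, ← k1] at kj
    exact eq_one_of_central w ki kj
  · intro w₁ w₂ x hx h1 h2
    apply P_injective
    rw [map_mul, map_mul]
    apply Subtype.ext
    have k1 := key4 w₁ x h1
    have k2 := key4 w₂ x h2
    have hX : Q4 x ≠ 0 := Q4_ne_zero hx
    have hc : (Nn w₁ : ℍ[ℝ]) * (Nn w₂ : ℍ[ℝ]) = (Nn w₂ : ℍ[ℝ]) * (Nn w₁ : ℍ[ℝ]) :=
      congrArg Subtype.val (Nn_comm w₁ w₂)
    apply mul_right_cancel₀ hX
    calc ((P w₁ * P w₂ : unitary ℍ[ℝ]) : ℍ[ℝ]) * Q4 x
        = (P w₁ : ℍ[ℝ]) * ((P w₂ : ℍ[ℝ]) * Q4 x) := by rw [Submonoid.coe_mul, mul_assoc]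
      _ = ((P w₁ : ℍ[ℝ]) * Q4 x) * (Nn w₂ : ℍ[ℝ]) := by rw [k2, mul_assoc]
      _ = Q4 x * ((Nn w₁ : ℍ[ℝ]) * (Nn w₂ : ℍ[ℝ])) := by rw [k1, mul_assoc]
      _ = Q4 x * ((Nn w₂ : ℍ[ℝ]) * (Nn w₁ : ℍ[ℝ])) := by rw [hc]
      _ = ((P w₂ : ℍ[ℝ]) * Q4 x) * (Nn w₁ : ℍ[ℝ]) := by rw [k2, mul_assoc]
      _ = (P w₂ : ℍ[ℝ]) * ((P w₁ : ℍ[ℝ]) * Q4 x) := by rw [k1, mul_assoc]
      _ = ((P w₂ * P w₁ : unitary ℍ[ℝ]) : ℍ[ℝ]) * Q4 x := by rw [Submonoid.coe_mul, mul_assoc]
  · intro h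
    have := congrFun h 0
    simp at this
  · have hp : P (FreeGroup.of 0) = gen 0 := by simp [P]
    have hn : Nn (FreeGroup.of 0) = negGen := by simp [Nn]
    have hval : (f4 (FreeGroup.of 0) : Matrix (Fin 4) (Fin 4) ℝ) =
      Lm (P (FreeGroup.of 0) : ℍ[ℝ]) * Rm (star (Nn (FreeGroup.of 0) : ℍ[ℝ])) := rfl
    rw [hval, hp, hn, ← Matrix.mulVec_mulVec]
    ext i
    fin_cases i
    all_goals simp [Lm, Rm, gen, negGen, Matrix.mulVec, dotProduct, Fin.sum_univ_four]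
    all_goals norm_num

/-! ### Direct sums and reindexing -/

theorem sum_split {ι κ : Type} [Fintype ι] [DecidableEq ι] [Fintype κ] [DecidableEq κ]
    (f : FreeGroup (Fin 2) →* Matrix.specialOrthogonalGroup ι ℝ)
    (g : FreeGroup (Fin 2) →* Matrix.specialOrthogonalGroup κ ℝ) (w : FreeGroup (Fin 2))
    (x : ι ⊕ κ → ℝ)
    (h : (((homSum ι κ).comp (f.prod g)) w : Matrix (ι ⊕ κ) (ι ⊕ κ) ℝ).mulVec x = x) :
    (f w : Matrix ι ι ℝ).mulVec (x ∘ Sum.inl) = x ∘ Sum.inl ∧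
    (g w : Matrix κ κ ℝ).mulVec (x ∘ Sum.inr) = x ∘ Sum.inr := by
  have hval : (((homSum ι κ).comp (f.prod g)) w : Matrix (ι ⊕ κ) (ι ⊕ κ) ℝ) =
    Matrix.fromBlocks (f w : Matrix ι ι ℝ) 0 0 (g w : Matrix κ κ ℝ) := rfl
  rw [hval, Matrix.fromBlocks_mulVec] at h
  constructor
  · funext i
    have := congrFun h (Sum.inl i)
    simpa using this
  · funext i
    have := congrFun h (Sum.inr i)
    simpa using this

theorem isS_sum {ι κ : Type} [Fintype ι] [DecidableEq ι] [Fintype κ] [DecidableEq κ]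
    {f : FreeGroup (Fin 2) →* Matrix.specialOrthogonalGroup ι ℝ}
    {g : FreeGroup (Fin 2) →* Matrix.specialOrthogonalGroup κ ℝ} (hf : IsS f) (hg : IsT g) :
    IsS ((homSum ι κ).comp (f.prod g)) := by
  obtain ⟨⟨hfi, hfc⟩, w, x, hx, hwx⟩ := hf
  obtain ⟨hgi, hgc⟩ := hg
  refine ⟨⟨?_, ?_⟩, w, Sum.elim x 0, ?_, ?_⟩
  · intro w₁ w₂ h
    apply hfi
    apply Subtype.ext
    have h1 : Matrix.fromBlocks (f w₁ : Matrix ι ι ℝ) 0 0 (g w₁ : Matrix κ κ ℝ) =
      Matrix.fromBlocks (f w₂ : Matrix ι ι ℝ) 0 0 (g w₂ : Matrix κ κ ℝ) := congrArg Subtype.val h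
    exact (Matrix.fromBlocks_inj.1 h1).1
  · intro w₁ w₂ y hy h1 h2
    have hne : y ∘ Sum.inl ≠ 0 ∨ y ∘ Sum.inr ≠ 0 := by
      by_contra hcon
      push Not at hcon
      apply hy
      funext i
      rcases i with i | i
      · exact congrFun hcon.1 i
      · exact congrFun hcon.2 i
    rcases hne with hne | hne
    · exact hfc w₁ w₂ _ hne (sum_split f g w₁ y h1).1 (sum_split f g w₂ y h2).1
    · exact hgc w₁ w₂ _ hne (sum_split f g w₁ y h1).2 (sum_split f g w₂ y h2).2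
  · intro h
    apply hx
    funext i
    exact congrFun h (Sum.inl i)
  · have hval : (((homSum ι κ).comp (f.prod g)) w : Matrix (ι ⊕ κ) (ι ⊕ κ) ℝ) =
      Matrix.fromBlocks (f w : Matrix ι ι ℝ) 0 0 (g w : Matrix κ κ ℝ) := rfl
    rw [hval, Matrix.fromBlocks_mulVec]
    funext i
    rcases i with i | i
    · have := congrFun hwx i
      simpa using this
    · simp

theorem isS_reindex {ι κ : Type} [Fintype ι] [DecidableEq ι] [Fintype κ] [DecidableEq κ]
    (e : ι ≃ κ) {f : FreeGroup (Fin 2) →* Matrix.specialOrthogonalGroup ι ℝ} (hf : IsS f) :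
    IsS ((homReindex e).comp f) := by
  obtain ⟨⟨hfi, hfc⟩, w, x, hx, hwx⟩ := hf
  have hval : ∀ w, (((homReindex e).comp f) w : Matrix κ κ ℝ) =
      (f w : Matrix ι ι ℝ).submatrix e.symm e.symm := fun w => rfl
  have hmul : ∀ (w : FreeGroup (Fin 2)) (y : κ → ℝ),
      (((homReindex e).comp f) w : Matrix κ κ ℝ).mulVec y =
      ((f w : Matrix ι ι ℝ).mulVec (y ∘ e)) ∘ e.symm := by
    intro w y
    rw [hval, Matrix.submatrix_mulVec_equiv]
    rfl
  refine ⟨⟨?_, ?_⟩, w, x ∘ e.symm, ?_, ?_⟩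
  · intro w₁ w₂ h
    apply hfi
    apply Subtype.ext
    have h1 : (f w₁ : Matrix ι ι ℝ).submatrix e.symm e.symm =
      (f w₂ : Matrix ι ι ℝ).submatrix e.symm e.symm := congrArg Subtype.val h
    ext i j
    have := congrFun (congrFun h1 (e i)) (e j)
    simpa using this
  · intro w₁ w₂ y hy h1 h2
    refine hfc w₁ w₂ (y ∘ e) ?_ ?_ ?_
    · intro h
      apply hy
      funext i
      have := congrFun h (e.symm i)
      simpa using this
    · rw [hmul] at h1
      funext i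
      have := congrFun h1 (e i)
      simpa using this
    · rw [hmul] at h2
      funext i
      have := congrFun h2 (e i)
      simpa using this
  · intro h
    apply hx
    funext i
    have := congrFun h (e i)
    simpa using this
  · rw [hmul]
    funext i
    have := congrFun hwx (e.symm i)
    simpa [Function.comp_assoc] using this

theorem exists_isS (n : ℕ) (hn : 6 ≤ n) :
    ∃ f : FreeGroup (Fin 2) →* Matrix.specialOrthogonalGroup (Fin n) ℝ, IsS f := by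
  induction n using Nat.strong_induction_on with
  | _ n ih =>
    by_cases h9 : 9 ≤ n
    · obtain ⟨f, hf⟩ := ih (n - 3) (by omega) (by omega)
      refine ⟨_, isS_reindex (finSumFinEquiv.trans (finCongr (by omega : n - 3 + 3 = n)))
        (isS_sum hf isT_three)⟩
    · have h : n = 6 ∨ n = 7 ∨ n = 8 := by omega
      rcases h with rfl | rfl | rfl
      · exact ⟨_, isS_reindex (finSumFinEquiv : Fin 3 ⊕ Fin 3 ≃ Fin (3 + 3)) isS_six⟩
      · exact ⟨_, isS_reindex (finSumFinEquiv : Fin 4 ⊕ Fin 3 ≃ Fin (4 + 3))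
          (isS_sum isS_four isT_three)⟩
      · exact ⟨_, isS_reindex (finSumFinEquiv : Fin 4 ⊕ Fin 4 ≃ Fin (4 + 4))
          (isS_sum isS_four isS_four.1)⟩

/-! ### The theorem -/

/-- A subgroup `G` of `SO_n(ℝ)` is locally commutative in its action on the unit sphere: any two
elements with a common fixed point on the unit sphere commute. -/
def LocallyCommutative {n : ℕ} (G : Subgroup (Matrix.specialOrthogonalGroup (Fin n) ℝ)) : Prop :=
  ∀ g ∈ G, ∀ h ∈ G,
    (∃ x : Fin n → ℝ, ∑ i, x i ^ 2 = 1 ∧ (g : Matrix (Fin n) (Fin n) ℝ).mulVec x = x ∧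
      (h : Matrix (Fin n) (Fin n) ℝ).mulVec x = x) → g * h = h * g

/-- A group is free and non-abelian: it is isomorphic to a free group of rank at least two. -/
def IsNonabelianFree (G : Type) [Group G] : Prop :=
  ∃ ι : Type, Nontrivial ι ∧ Nonempty (G ≃* FreeGroup ι)

/-- The matrix `g` has `-1` as an eigenvalue. -/
def HasEigenvalueNegOne {n : ℕ} (g : Matrix (Fin n) (Fin n) ℝ) : Prop :=
  ∃ x : Fin n → ℝ, x ≠ 0 ∧ g.mulVec x = -x

/-- For every `n ≥ 6` there is a locally commutative non-abelian free subgroup of `SO_n(ℝ)`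
containing an element with eigenvalue `-1`. -/
theorem result (n : ℕ) (hn : 6 ≤ n) :
    ∃ G : Subgroup (Matrix.specialOrthogonalGroup (Fin n) ℝ),
      LocallyCommutative G ∧ IsNonabelianFree G ∧
      ∃ g ∈ G, HasEigenvalueNegOne (g : Matrix (Fin n) (Fin n) ℝ) := by
  obtain ⟨f, ⟨hfi, hfc⟩, w, x, hx, hwx⟩ := exists_isS n hn
  refine ⟨f.range, ?_, ⟨Fin 2, inferInstance, ⟨(MonoidHom.ofInjective hfi).symm⟩⟩,
    f w, ⟨w, rfl⟩, x, hx, hwx⟩
  rintro _ ⟨w₁, rfl⟩ _ ⟨w₂, rfl⟩ ⟨y, hy, h1, h2⟩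
  have hy0 : y ≠ 0 := by
    rintro rfl
    simp at hy
  rw [← map_mul, ← map_mul, hfc w₁ w₂ y hy0 h1 h2]

end Pool.Agent.Results.MP_6087e2_al.AllDimensions
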